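import Mathlib

set_option autoImplicit false

namespace Pool.Agent.Results.MP_e9c1cb_nt.ShortGapsInClasses

/-- `n` is `m`-representable: `n = w ^ 2 + x ^ 3 + 2 * y ^ 3 + m * z ^ 3` with natural numbers
`w, x, y, z` (zero allowed). -/
def Representable (m n : ℕ) : Prop :=
  ∃ w x y z : ℕ, n = w ^ 2 + x ^ 3 + 2 * y ^ 3 + m * z ^ 3

theorem signed3 (n : ℤ) : ∃ w x y z : ℤ, n = w ^ 2 + x ^ 3 + 2 * y ^ 3 + 3 * z ^ 3 := by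
  have h : n % 9 = 0 ∨ n % 3 = 1 ∨ n % 6 = 2 ∨ n % 9 = 3 ∨ n % 6 = 5 ∨ n % 9 = 6 := by omega
  rcases h with h | h | h | h | h | h
  · obtain ⟨t, rfl⟩ : ∃ t, n = (-27) + (-9) * t := ⟨(n - (-27)) / (-9), by omega⟩
    exact ⟨(3)*t + (6), (-1)*t + (-4), (-1)*t + (-1), (1)*t + (1), by ring⟩
  · obtain ⟨t, rfl⟩ : ∃ t, n = (-5) + (-3) * t := ⟨(n - (-5)) / (-3), by omega⟩
    exact ⟨(3)*t + (4), (-5)*t + (-5), (4)*t + (4), (-1)*t + (-2), by ring⟩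
  · obtain ⟨t, rfl⟩ : ∃ t, n = (-76) + (-6) * t := ⟨(n - (-76)) / (-6), by omega⟩
    exact ⟨(1)*t^3 + (-3)*t^2 + (-3)*t + (2), (1)*t^2 + (-4)*t + (-1), (-1)*t^2 + (3)*t + (1), (-3), by ring⟩
  · obtain ⟨t, rfl⟩ : ∃ t, n = (-51) + (-9) * t := ⟨(n - (-51)) / (-9), by omega⟩
    exact ⟨(9)*t + (6), (-5)*t + (-2), (4)*t + (1), (-1)*t + (-3), by ring⟩
  · obtain ⟨t, rfl⟩ : ∃ t, n = (-187) + (-6) * t := ⟨(n - (-187)) / (-6), by omega⟩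
    exact ⟨(1)*t^3 + (-3)*t^2 + (-3)*t + (2), (1)*t^2 + (-4)*t + (-1), (-1)*t^2 + (3)*t + (1), (-4), by ring⟩
  · obtain ⟨t, rfl⟩ : ∃ t, n = (-12) + (-9) * t := ⟨(n - (-12)) / (-9), by omega⟩
    exact ⟨(3)*t + (3), (-5)*t + (-5), (4)*t + (4), (-1)*t + (-2), by ring⟩

theorem signed4 (n : ℤ) : ∃ w x y z : ℤ, n = w ^ 2 + x ^ 3 + 2 * y ^ 3 + 4 * z ^ 3 := by
  have h : n % 6 = 0 ∨ n % 6 = 1 ∨ n % 6 = 2 ∨ n % 6 = 3 ∨ n % 6 = 4 ∨ n % 6 = 5 := by omega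
  rcases h with h | h | h | h | h | h
  · obtain ⟨t, rfl⟩ : ∃ t, n = (-264) + (6) * t := ⟨(n - (-264)) / (6), by omega⟩
    exact ⟨(4)*t^3 + (12)*t^2 + (18)*t + (11), (-2)*t + (-1), (-2)*t^2 + (-4)*t + (-4), (-4), by ring⟩
  · obtain ⟨t, rfl⟩ : ∃ t, n = (-251) + (-6) * t := ⟨(n - (-251)) / (-6), by omega⟩
    exact ⟨(1)*t^3 + (-3)*t^2 + (-3)*t + (2), (1)*t^2 + (-4)*t + (-1), (-1)*t^2 + (3)*t + (1), (-4), by ring⟩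
  · obtain ⟨t, rfl⟩ : ∃ t, n = (-40) + (6) * t := ⟨(n - (-40)) / (6), by omega⟩
    exact ⟨(4)*t^3 + (12)*t^2 + (18)*t + (11), (-2)*t + (-1), (-2)*t^2 + (-4)*t + (-4), (-2), by ring⟩
  · obtain ⟨t, rfl⟩ : ∃ t, n = (9) + (-6) * t := ⟨(n - (9)) / (-6), by omega⟩
    exact ⟨(1)*t^3 + (-3)*t^2 + (3)*t + (-2), (1)*t^2 + (-4)*t + (3), (-1)*t^2 + (3)*t + (-3), (-1)*t + (2), by ring⟩
  · obtain ⟨t, rfl⟩ : ∃ t, n = (-116) + (6) * t := ⟨(n - (-116)) / (6), by omega⟩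
    exact ⟨(4)*t^3 + (12)*t^2 + (18)*t + (11), (-2)*t + (-1), (-2)*t^2 + (-4)*t + (-4), (-3), by ring⟩
  · obtain ⟨t, rfl⟩ : ∃ t, n = (35) + (6) * t := ⟨(n - (35)) / (6), by omega⟩
    exact ⟨(2)*t^3 + (6)*t^2 + (12)*t + (14), (-2)*t + (1), (-2)*t + (-3), (-1)*t^2 + (-2)*t + (-3), by ring⟩

theorem signed5 (n : ℤ) : ∃ w x y z : ℤ, n = w ^ 2 + x ^ 3 + 2 * y ^ 3 + 5 * z ^ 3 := by
  have h : n % 6 = 0 ∨ n % 6 = 1 ∨ n % 3 = 2 ∨ n % 6 = 3 ∨ n % 6 = 4 := by omega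
  rcases h with h | h | h | h | h
  · obtain ⟨t, rfl⟩ : ∃ t, n = (-48) + (6) * t := ⟨(n - (-48)) / (6), by omega⟩
    exact ⟨(4)*t^3 + (12)*t^2 + (18)*t + (11), (-2)*t + (-1), (-2)*t^2 + (-4)*t + (-4), (-2), by ring⟩
  · obtain ⟨t, rfl⟩ : ∃ t, n = (-143) + (6) * t := ⟨(n - (-143)) / (6), by omega⟩
    exact ⟨(4)*t^3 + (12)*t^2 + (18)*t + (11), (-2)*t + (-1), (-2)*t^2 + (-4)*t + (-4), (-3), by ring⟩
  · obtain ⟨t, rfl⟩ : ∃ t, n = (5) + (-3) * t := ⟨(n - (5)) / (-3), by omega⟩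
    exact ⟨(2)*t^3 + (-9)*t^2 + (12)*t + (-4), (1)*t^2 + (-3)*t + (3), (-1)*t + (1), (-1)*t^2 + (3)*t + (-2), by ring⟩
  · obtain ⟨t, rfl⟩ : ∃ t, n = (2565) + (-6) * t := ⟨(n - (2565)) / (-6), by omega⟩
    exact ⟨(1)*t^3 + (3)*t^2 + (-3)*t + (-49), (-1)*t^2 + (-2)*t + (3), (4)*t + (1), (-2)*t + (3), by ring⟩
  · obtain ⟨t, rfl⟩ : ∃ t, n = (-8) + (6) * t := ⟨(n - (-8)) / (6), by omega⟩
    exact ⟨(4)*t^3 + (12)*t^2 + (18)*t + (11), (-2)*t + (-1), (-2)*t^2 + (-4)*t + (-4), 0, by ring⟩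

theorem signed6 (n : ℤ) : ∃ w x y z : ℤ, n = w ^ 2 + x ^ 3 + 2 * y ^ 3 + 6 * z ^ 3 := by
  have h : n % 18 = 0 ∨ n % 6 = 1 ∨ n % 6 = 2 ∨ n % 18 = 3 ∨ n % 6 = 4 ∨ n % 6 = 5 ∨ n % 18 = 6 ∨ n % 18 = 9 ∨ n % 18 = 12 ∨ n % 18 = 15 := by omega
  rcases h with h | h | h | h | h | h | h | h | h | h
  · obtain ⟨t, rfl⟩ : ∃ t, n = (-18) + (-18) * t := ⟨(n - (-18)) / (-18), by omega⟩
    exact ⟨(6)*t + (3), (-2)*t + (-3), (1)*t, (1)*t, by ring⟩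
  · obtain ⟨t, rfl⟩ : ∃ t, n = (-23) + (-6) * t := ⟨(n - (-23)) / (-6), by omega⟩
    exact ⟨(6)*t + (-8), (-2)*t + (-7), (1)*t + (-4), (1)*t + (4), by ring⟩
  · obtain ⟨t, rfl⟩ : ∃ t, n = (-16) + (6) * t := ⟨(n - (-16)) / (6), by omega⟩
    exact ⟨(1)*t^3 + (-3)*t^2 + (-3)*t + (11), (1)*t^2 + (-4)*t + (3), (-1)*t^2 + (3)*t + (-1), (1)*t + (-3), by ring⟩
  · obtain ⟨t, rfl⟩ : ∃ t, n = (93) + (18) * t := ⟨(n - (93)) / (18), by omega⟩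
    exact ⟨(-6), (-2)*t + (-7), (1)*t + (2), (1)*t + (4), by ring⟩
  · obtain ⟨t, rfl⟩ : ∃ t, n = (-38) + (6) * t := ⟨(n - (-38)) / (6), by omega⟩
    exact ⟨(6)*t + (-7), (-2)*t + (-7), (1)*t + (-4), (1)*t + (4), by ring⟩
  · obtain ⟨t, rfl⟩ : ∃ t, n = (-379) + (-6) * t := ⟨(n - (-379)) / (-6), by omega⟩
    exact ⟨(1)*t^3 + (-3)*t^2 + (-3)*t + (2), (1)*t^2 + (-4)*t + (-1), (-1)*t^2 + (3)*t + (1), (-4), by ring⟩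
  · obtain ⟨t, rfl⟩ : ∃ t, n = (78) + (18) * t := ⟨(n - (78)) / (18), by omega⟩
    exact ⟨(-3), (-2)*t + (-7), (1)*t + (5), (1)*t + (3), by ring⟩
  · obtain ⟨t, rfl⟩ : ∃ t, n = (9) + (18) * t := ⟨(n - (9)) / (18), by omega⟩
    exact ⟨(6)*t + (6), (-2)*t + (-3), (1)*t, (1)*t, by ring⟩
  · obtain ⟨t, rfl⟩ : ∃ t, n = (66) + (18) * t := ⟨(n - (66)) / (18), by omega⟩
    exact ⟨(-3), (-2)*t + (-7), (1)*t + (2), (1)*t + (4), by ring⟩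
  · obtain ⟨t, rfl⟩ : ∃ t, n = (105) + (18) * t := ⟨(n - (105)) / (18), by omega⟩
    exact ⟨(-6), (-2)*t + (-7), (1)*t + (5), (1)*t + (3), by ring⟩

theorem signed (m : ℕ) (h3 : 3 ≤ m) (h6 : m ≤ 6) (n : ℤ) :
    ∃ w x y z : ℤ, n = w ^ 2 + x ^ 3 + 2 * y ^ 3 + m * z ^ 3 := by
  interval_cases m
  · exact_mod_cast signed3 n
  · exact_mod_cast signed4 n
  · exact_mod_cast signed5 n
  · exact_mod_cast signed6 n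

/-- Reduction of an integer modulo `M` to a natural number. -/
theorem shift (M : ℕ) (hM : 0 < M) (w : ℤ) :
    ∃ W : ℕ, W < M ∧ (W : ℤ) ≡ w [ZMOD M] := by
  have hM' : (0 : ℤ) < M := by exact_mod_cast hM
  have h0 : 0 ≤ w % M := Int.emod_nonneg _ hM'.ne'
  have h1 : w % M < M := Int.emod_lt_of_pos _ hM'
  refine ⟨(w % M).toNat, by omega, ?_⟩
  rw [Int.toNat_of_nonneg h0]
  exact Int.mod_modEq _ _

theorem bracket (f : ℕ → ℕ) (r : ℕ) (h0 : f 0 ≤ r) (h : ∃ j, r < f j) :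
    ∃ j, f j ≤ r ∧ r < f (j + 1) := by
  have hs := Nat.find_spec h
  have hne : Nat.find h ≠ 0 := by
    intro h1
    rw [h1] at hs
    omega
  obtain ⟨i, hi⟩ := Nat.exists_eq_succ_of_ne_zero hne
  refine ⟨i, ?_, ?_⟩
  · have := Nat.find_min h (m := i) (by omega)
    omega
  · rw [hi] at hs
    exact hs

/-- Greedy step for a square in a residue class. -/
theorem square_step (M x0 : ℕ) (hM : 0 < M) (hx0 : x0 < M) (n : ℕ) :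
    ∃ w : ℕ, w ≡ x0 [MOD M] ∧ -(M : ℤ) ^ 2 ≤ (n : ℤ) - w ^ 2 ∧
      (|(n : ℤ) - w ^ 2| + 1) ^ 2 ≤ 8 * (M : ℤ) ^ 4 * (n + 1) := by
  have hM1 : (1 : ℤ) ≤ M := by exact_mod_cast hM
  have hx : (x0 : ℤ) < M := by exact_mod_cast hx0
  have hx' : (0 : ℤ) ≤ x0 := Int.natCast_nonneg _
  have hn : (0 : ℤ) ≤ n := Int.natCast_nonneg _
  rcases lt_or_ge n (x0 ^ 2) with hlt | hge
  · have hlt' : (n : ℤ) < (x0 : ℤ) ^ 2 := by exact_mod_cast hlt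
    refine ⟨x0, Nat.ModEq.refl _, ?_, ?_⟩
    · nlinarith
    · have h1 : |(n : ℤ) - x0 ^ 2| + 1 ≤ (M : ℤ) ^ 2 + 1 := by
        rw [abs_of_neg (by linarith)]
        nlinarith
      calc (|(n : ℤ) - x0 ^ 2| + 1) ^ 2 ≤ ((M : ℤ) ^ 2 + 1) ^ 2 :=
            pow_le_pow_left₀ (by positivity) h1 2
        _ ≤ (2 * (M : ℤ) ^ 2) ^ 2 := pow_le_pow_left₀ (by positivity) (by nlinarith) 2
        _ = 4 * (M : ℤ) ^ 4 * 1 := by ring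
        _ ≤ 8 * (M : ℤ) ^ 4 * (n + 1) := by
            have : (0 : ℤ) ≤ (M : ℤ) ^ 4 := by positivity
            nlinarith [mul_nonneg this hn]
  · obtain ⟨j, hj1, hj2⟩ := bracket (fun j => (x0 + M * j) ^ 2) n (by simpa using hge)
      ⟨n + 1, by
        have : n + 1 ≤ x0 + M * (n + 1) := by nlinarith
        calc n < n + 1 := Nat.lt_succ_self n
          _ ≤ x0 + M * (n + 1) := this
          _ ≤ (x0 + M * (n + 1)) ^ 2 := Nat.le_self_pow (by norm_num) _⟩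
    set w := x0 + M * j with hw
    have hw1 : x0 + M * (j + 1) = w + M := by rw [hw]; ring
    rw [hw1] at hj2
    have a1 : (w : ℤ) ^ 2 ≤ n := by exact_mod_cast hj1
    have a2 : (n : ℤ) < ((w : ℤ) + M) ^ 2 := by exact_mod_cast hj2
    have hw0 : (0 : ℤ) ≤ w := Int.natCast_nonneg _
    refine ⟨w, ?_, ?_, ?_⟩
    · rw [hw]
      exact (Nat.modEq_iff_dvd' (by omega)).2 (by simp) |>.symm
    · have : (0 : ℤ) ≤ (M : ℤ) ^ 2 := by positivity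
      linarith
    · have h1 : |(n : ℤ) - w ^ 2| + 1 ≤ 2 * (M : ℤ) ^ 2 * (w + 1) := by
        rw [abs_of_nonneg (by linarith)]
        have : (n : ℤ) + 1 ≤ ((w : ℤ) + M) ^ 2 := a2
        nlinarith [mul_nonneg hw0 (by linarith : (0 : ℤ) ≤ M - 1),
          mul_nonneg (mul_nonneg hw0 (by linarith : (0 : ℤ) ≤ (M : ℤ))) (by linarith : (0 : ℤ) ≤ (M : ℤ) - 1)]
      calc (|(n : ℤ) - w ^ 2| + 1) ^ 2 ≤ (2 * (M : ℤ) ^ 2 * (w + 1)) ^ 2 :=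
            pow_le_pow_left₀ (by positivity) h1 2
        _ = 4 * (M : ℤ) ^ 4 * (w + 1) ^ 2 := by ring
        _ ≤ 4 * (M : ℤ) ^ 4 * (2 * (n + 1)) := by
            refine mul_le_mul_of_nonneg_left ?_ (by positivity)
            nlinarith [sq_nonneg ((w : ℤ) - 1)]
        _ = 8 * (M : ℤ) ^ 4 * (n + 1) := by ring

/-- Greedy step for `a` times a cube in a residue class. -/
theorem cube_step (M a x0 : ℕ) (hM : 0 < M) (ha : 1 ≤ a) (ha6 : a ≤ 6) (hx0 : x0 < M)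
    (B : ℤ) (r : ℤ) (hr : -B ≤ r) :
    ∃ x : ℕ, x ≡ x0 [MOD M] ∧ -(|B| + 6 * (M : ℤ) ^ 3) ≤ r - a * x ^ 3 ∧
      (|r - a * x ^ 3| + 1) ^ 3 ≤
        ((|B| + 6 * (M : ℤ) ^ 3 + 1) ^ 3 + 343 * 216 * 4 * (M : ℤ) ^ 9) * (|r| + 1) ^ 2 := by
  have hM1 : (1 : ℤ) ≤ M := by exact_mod_cast hM
  have hx : (x0 : ℤ) ≤ M := by exact_mod_cast hx0.le
  have hx' : (0 : ℤ) ≤ x0 := Int.natCast_nonneg _
  have ha0 : (1 : ℤ) ≤ a := by exact_mod_cast ha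
  have ha6' : (a : ℤ) ≤ 6 := by exact_mod_cast ha6
  have hB : B ≤ |B| := le_abs_self B
  have hB0 : 0 ≤ |B| := abs_nonneg B
  have hr0 : 0 ≤ |r| := abs_nonneg r
  have hxM : (x0 : ℤ) ^ 3 ≤ (M : ℤ) ^ 3 := pow_le_pow_left₀ hx' hx 3
  have hM3 : (0 : ℤ) ≤ (M : ℤ) ^ 3 := by positivity
  have hxn : (0 : ℤ) ≤ (x0 : ℤ) ^ 3 := by positivity
  have haxM : (a : ℤ) * (x0 : ℤ) ^ 3 ≤ 6 * (M : ℤ) ^ 3 :=
    mul_le_mul ha6' hxM hxn (by norm_num)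
  rcases lt_or_ge r (a * (x0 : ℤ) ^ 3) with hlt | hge
  · refine ⟨x0, Nat.ModEq.refl _, by linarith, ?_⟩
    have h1 : |r - a * (x0 : ℤ) ^ 3| + 1 ≤ |B| + 6 * (M : ℤ) ^ 3 + 1 := by
      rw [abs_of_neg (by linarith)]
      linarith
    have hD : (0 : ℤ) ≤ (|B| + 6 * (M : ℤ) ^ 3 + 1) ^ 3 := by positivity
    have hE : (0 : ℤ) ≤ 343 * 216 * 4 * (M : ℤ) ^ 9 := by positivity
    have hF : (1 : ℤ) ≤ (|r| + 1) ^ 2 := by nlinarith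
    calc (|r - a * (x0 : ℤ) ^ 3| + 1) ^ 3 ≤ (|B| + 6 * (M : ℤ) ^ 3 + 1) ^ 3 :=
          pow_le_pow_left₀ (by positivity) h1 3
      _ ≤ ((|B| + 6 * (M : ℤ) ^ 3 + 1) ^ 3 + 343 * 216 * 4 * (M : ℤ) ^ 9) * 1 := by linarith
      _ ≤ ((|B| + 6 * (M : ℤ) ^ 3 + 1) ^ 3 + 343 * 216 * 4 * (M : ℤ) ^ 9) * (|r| + 1) ^ 2 :=
          mul_le_mul_of_nonneg_left hF (by linarith)
  · have hrn : 0 ≤ r := le_trans (by positivity) hge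
    obtain ⟨s, rfl⟩ := Int.eq_ofNat_of_zero_le hrn
    have hge' : a * x0 ^ 3 ≤ s := by exact_mod_cast hge
    obtain ⟨j, hj1, hj2⟩ := bracket (fun j => a * (x0 + M * j) ^ 3) s (by simpa using hge')
      ⟨s + 1, by
        have : s + 1 ≤ x0 + M * (s + 1) := by nlinarith
        calc s < s + 1 := Nat.lt_succ_self s
          _ ≤ x0 + M * (s + 1) := this
          _ ≤ (x0 + M * (s + 1)) ^ 3 := Nat.le_self_pow (by norm_num) _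
          _ ≤ a * (x0 + M * (s + 1)) ^ 3 := Nat.le_mul_of_pos_left _ ha⟩
    set x := x0 + M * j with hw
    have hw1 : x0 + M * (j + 1) = x + M := by rw [hw]; ring
    rw [hw1] at hj2
    have a1 : (a : ℤ) * (x : ℤ) ^ 3 ≤ s := by exact_mod_cast hj1
    have a2 : (s : ℤ) < a * ((x : ℤ) + M) ^ 3 := by exact_mod_cast hj2
    have hw0 : (0 : ℤ) ≤ x := Int.natCast_nonneg _
    refine ⟨x, ?_, ?_, ?_⟩
    · rw [hw]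
      exact (Nat.modEq_iff_dvd' (by omega)).2 (by simp) |>.symm
    · linarith
    · have e1 : (M : ℤ) ≤ (M : ℤ) ^ 3 := le_self_pow₀ hM1 (by norm_num)
      have e2 : (M : ℤ) ^ 2 ≤ (M : ℤ) ^ 3 := pow_le_pow_right₀ hM1 (by norm_num)
      have e3 : (x : ℤ) ≤ (x : ℤ) ^ 2 + 1 := by nlinarith [sq_nonneg ((x : ℤ) - 1)]
      have e4 : 3 * (x : ℤ) ^ 2 * M + 3 * x * (M : ℤ) ^ 2 + (M : ℤ) ^ 3
          ≤ 7 * (M : ℤ) ^ 3 * ((x : ℤ) ^ 2 + 1) := by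
        have f1 : (x : ℤ) ^ 2 * M ≤ (x : ℤ) ^ 2 * (M : ℤ) ^ 3 :=
          mul_le_mul_of_nonneg_left e1 (by positivity)
        have f2 : (x : ℤ) * (M : ℤ) ^ 2 ≤ ((x : ℤ) ^ 2 + 1) * (M : ℤ) ^ 3 :=
          mul_le_mul e3 e2 (by positivity) (by positivity)
        have f3 : (0 : ℤ) ≤ (x : ℤ) ^ 2 * (M : ℤ) ^ 3 := by positivity
        nlinarith
      have h1 : |(s : ℤ) - a * (x : ℤ) ^ 3| + 1 ≤ 42 * (M : ℤ) ^ 3 * ((x : ℤ) ^ 2 + 1) := by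
        rw [abs_of_nonneg (by linarith)]
        have g1 : (s : ℤ) + 1 ≤ a * ((x : ℤ) + M) ^ 3 := a2
        have g2 : (a : ℤ) * ((x : ℤ) + M) ^ 3 = a * (x : ℤ) ^ 3
            + a * (3 * (x : ℤ) ^ 2 * M + 3 * x * (M : ℤ) ^ 2 + (M : ℤ) ^ 3) := by ring
        have g3 : (a : ℤ) * (3 * (x : ℤ) ^ 2 * M + 3 * x * (M : ℤ) ^ 2 + (M : ℤ) ^ 3)
            ≤ 6 * (7 * (M : ℤ) ^ 3 * ((x : ℤ) ^ 2 + 1)) :=
          mul_le_mul ha6' e4 (by positivity) (by norm_num)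
        linarith
      have h2 : ((x : ℤ) ^ 2 + 1) ^ 3 ≤ 4 * ((x : ℤ) ^ 3 + 1) ^ 2 := by
        rcases Nat.eq_zero_or_pos x with h0 | h0
        · rw [h0]; norm_num
        · have hx1 : (1 : ℤ) ≤ x := by exact_mod_cast h0
          have k1 : (x : ℤ) ^ 2 ≤ (x : ℤ) ^ 4 := pow_le_pow_right₀ hx1 (by norm_num)
          have k2 : (x : ℤ) ^ 4 ≤ (x : ℤ) ^ 6 := pow_le_pow_right₀ hx1 (by norm_num)
          have k3 : (x : ℤ) ^ 2 ≤ (x : ℤ) ^ 3 := pow_le_pow_right₀ hx1 (by norm_num)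
          have k4 : (0 : ℤ) ≤ (x : ℤ) ^ 2 := by positivity
          nlinarith
      have h3 : ((x : ℤ) ^ 3 + 1) ^ 2 ≤ (|(s : ℤ)| + 1) ^ 2 := by
        refine pow_le_pow_left₀ (by positivity) ?_ 2
        rw [abs_of_nonneg hrn]
        have : (x : ℤ) ^ 3 ≤ a * (x : ℤ) ^ 3 := le_mul_of_one_le_left (by positivity) ha0
        linarith
      calc (|(s : ℤ) - a * (x : ℤ) ^ 3| + 1) ^ 3
          ≤ (42 * (M : ℤ) ^ 3 * ((x : ℤ) ^ 2 + 1)) ^ 3 := pow_le_pow_left₀ (by positivity) h1 3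
        _ = 343 * 216 * (M : ℤ) ^ 9 * ((x : ℤ) ^ 2 + 1) ^ 3 := by ring
        _ ≤ 343 * 216 * (M : ℤ) ^ 9 * (4 * ((x : ℤ) ^ 3 + 1) ^ 2) :=
            mul_le_mul_of_nonneg_left h2 (by positivity)
        _ ≤ 343 * 216 * (M : ℤ) ^ 9 * (4 * (|(s : ℤ)| + 1) ^ 2) :=
            mul_le_mul_of_nonneg_left (by linarith) (by positivity)
        _ = (0 + 343 * 216 * 4 * (M : ℤ) ^ 9) * (|(s : ℤ)| + 1) ^ 2 := by ring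
        _ ≤ ((|B| + 6 * (M : ℤ) ^ 3 + 1) ^ 3 + 343 * 216 * 4 * (M : ℤ) ^ 9)
            * (|(s : ℤ)| + 1) ^ 2 := by
            refine mul_le_mul_of_nonneg_right ?_ (by positivity)
            have : (0 : ℤ) ≤ (|B| + 6 * (M : ℤ) ^ 3 + 1) ^ 3 := by positivity
            linarith

theorem cube_step' (M : ℕ) (hM : 0 < M) (B : ℤ) : ∃ B' K : ℤ, 0 ≤ K ∧
    ∀ a : ℕ, 1 ≤ a → a ≤ 6 → ∀ x0 : ℕ, x0 < M → ∀ r : ℤ, -B ≤ r →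
      ∃ x : ℕ, x ≡ x0 [MOD M] ∧ -B' ≤ r - a * x ^ 3 ∧
        (|r - a * x ^ 3| + 1) ^ 3 ≤ K * (|r| + 1) ^ 2 :=
  ⟨|B| + 6 * (M : ℤ) ^ 3, (|B| + 6 * (M : ℤ) ^ 3 + 1) ^ 3 + 343 * 216 * 4 * (M : ℤ) ^ 9,
    by positivity, fun a ha ha6 x0 hx0 r hr => cube_step M a x0 hM ha ha6 hx0 B r hr⟩

theorem chain (K1 K2 K3 K4 s0 s1 s2 s3 s4 : ℤ) (p1 : 0 ≤ K1) (p2 : 0 ≤ K2) (p3 : 0 ≤ K3)
    (p4 : 0 ≤ K4) (q1 : 0 ≤ s1) (q2 : 0 ≤ s2) (q3 : 0 ≤ s3) (q4 : 0 ≤ s4)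
    (h1 : s1 ^ 2 ≤ K1 * s0) (h2 : s2 ^ 3 ≤ K2 * s1 ^ 2) (h3 : s3 ^ 3 ≤ K3 * s2 ^ 2)
    (h4 : s4 ^ 3 ≤ K4 * s3 ^ 2) :
    s4 ^ 27 ≤ K4 ^ 9 * K3 ^ 6 * K2 ^ 4 * K1 ^ 4 * s0 ^ 4 := by
  calc s4 ^ 27 = (s4 ^ 3) ^ 9 := by ring
    _ ≤ (K4 * s3 ^ 2) ^ 9 := pow_le_pow_left₀ (by positivity) h4 9
    _ = K4 ^ 9 * (s3 ^ 3) ^ 6 := by ring
    _ ≤ K4 ^ 9 * (K3 * s2 ^ 2) ^ 6 :=
        mul_le_mul_of_nonneg_left (pow_le_pow_left₀ (by positivity) h3 6) (by positivity)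
    _ = K4 ^ 9 * K3 ^ 6 * (s2 ^ 3) ^ 4 := by ring
    _ ≤ K4 ^ 9 * K3 ^ 6 * (K2 * s1 ^ 2) ^ 4 :=
        mul_le_mul_of_nonneg_left (pow_le_pow_left₀ (by positivity) h2 4) (by positivity)
    _ = K4 ^ 9 * K3 ^ 6 * K2 ^ 4 * (s1 ^ 2) ^ 4 := by ring
    _ ≤ K4 ^ 9 * K3 ^ 6 * K2 ^ 4 * (K1 * s0) ^ 4 :=
        mul_le_mul_of_nonneg_left (pow_le_pow_left₀ (by positivity) h1 4) (by positivity)
    _ = K4 ^ 9 * K3 ^ 6 * K2 ^ 4 * K1 ^ 4 * s0 ^ 4 := by ring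

/-- For every modulus `M` there is a constant `C` such that for each `m ∈ {3, 4, 5, 6}`, every
residue class `r` modulo `M` and every `n`, some `m`-representable `k ≡ r (mod M)` satisfies
`|k - n| ≤ C (n + 1) ^ (4 / 27)`. -/
theorem result : ∀ M : ℕ, 0 < M → ∃ C : ℝ, ∀ m : ℕ, 3 ≤ m → m ≤ 6 → ∀ r n : ℕ,
    ∃ k : ℕ, Representable m k ∧ k ≡ r [MOD M] ∧
      |(k : ℝ) - (n : ℝ)| ≤ C * ((n : ℝ) + 1) ^ ((4 : ℝ) / 27) := by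
  intro M hM
  obtain ⟨K, hK0, hK⟩ : ∃ K : ℤ, 0 ≤ K ∧ ∀ m : ℕ, 3 ≤ m → m ≤ 6 → ∀ r n : ℕ,
      ∃ k : ℕ, Representable m k ∧ k ≡ r [MOD M] ∧
        (|(n : ℤ) - k| + 1) ^ 27 ≤ K * ((n : ℤ) + 1) ^ 4 := by
    obtain ⟨B2, K2, p2, c2⟩ := cube_step' M hM ((M : ℤ) ^ 2)
    obtain ⟨B3, K3, p3, c3⟩ := cube_step' M hM B2
    obtain ⟨B4, K4, p4, c4⟩ := cube_step' M hM B3
    have p1 : (0 : ℤ) ≤ 8 * (M : ℤ) ^ 4 := by positivity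
    refine ⟨K4 ^ 9 * K3 ^ 6 * K2 ^ 4 * (8 * (M : ℤ) ^ 4) ^ 4, by positivity, ?_⟩
    intro m h3 h6 r n
    obtain ⟨w0, x0, y0, z0, h⟩ := signed m h3 h6 r
    obtain ⟨W, hWM, hW⟩ := shift M hM w0
    obtain ⟨X, hXM, hX⟩ := shift M hM x0
    obtain ⟨Y, hYM, hY⟩ := shift M hM y0
    obtain ⟨Z, hZM, hZ⟩ := shift M hM z0
    obtain ⟨w, hw, hw1, hw2⟩ := square_step M W hM hWM n
    obtain ⟨x, hx, hx1, hx2⟩ := c2 1 le_rfl (by norm_num) X hXM _ hw1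
    obtain ⟨y, hy, hy1, hy2⟩ := c3 2 (by norm_num) (by norm_num) Y hYM _ hx1
    obtain ⟨z, hz, hz1, hz2⟩ := c4 m (by omega) h6 Z hZM _ hy1
    refine ⟨w ^ 2 + x ^ 3 + 2 * y ^ 3 + m * z ^ 3, ⟨w, x, y, z, rfl⟩, ?_, ?_⟩
    · rw [← Int.natCast_modEq_iff]
      push_cast
      rw [h]
      have cw := (Int.natCast_modEq_iff.2 hw).trans hW
      have cx := (Int.natCast_modEq_iff.2 hx).trans hX
      have cy := (Int.natCast_modEq_iff.2 hy).trans hY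
      have cz := (Int.natCast_modEq_iff.2 hz).trans hZ
      exact (((cw.pow 2).add (cx.pow 3)).add ((cy.pow 3).mul_left 2)).add ((cz.pow 3).mul_left _)
    · have hk : (n : ℤ) - ((w ^ 2 + x ^ 3 + 2 * y ^ 3 + m * z ^ 3 : ℕ) : ℤ)
          = (n : ℤ) - w ^ 2 - (1 : ℕ) * x ^ 3 - (2 : ℕ) * y ^ 3 - m * z ^ 3 := by
        push_cast
        ring
      rw [hk]
      exact chain (8 * (M : ℤ) ^ 4) K2 K3 K4 ((n : ℤ) + 1) _ _ _ _ p1 p2 p3 p4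
        (by positivity) (by positivity) (by positivity) (by positivity) hw2 hx2 hy2 hz2
  refine ⟨(K : ℝ) ^ ((1 : ℝ) / 27), ?_⟩
  intro m h3 h6 r n
  obtain ⟨k, hk, hkr, hle⟩ := hK m h3 h6 r n
  refine ⟨k, hk, hkr, ?_⟩
  have hK0' : (0 : ℝ) ≤ (K : ℝ) := by exact_mod_cast hK0
  have h0 : (0 : ℝ) ≤ |(k : ℝ) - (n : ℝ)| := abs_nonneg _
  have hR0 : (|(n : ℝ) - (k : ℝ)| + 1) ^ (27 : ℕ) ≤ (K : ℝ) * ((n : ℝ) + 1) ^ (4 : ℕ) := by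
    exact_mod_cast hle
  have hR : |(k : ℝ) - (n : ℝ)| ^ (27 : ℕ) ≤ (K : ℝ) * ((n : ℝ) + 1) ^ (4 : ℕ) := by
    refine le_trans (pow_le_pow_left₀ h0 ?_ 27) hR0
    rw [abs_sub_comm]
    linarith
  have h1 : |(k : ℝ) - (n : ℝ)| = (|(k : ℝ) - (n : ℝ)| ^ (27 : ℕ)) ^ ((1 : ℝ) / 27) := by
    rw [← Real.rpow_natCast, ← Real.rpow_mul h0]
    norm_num
  have hn1 : (0 : ℝ) ≤ (n : ℝ) + 1 := by positivity
  rw [h1]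
  calc (|(k : ℝ) - (n : ℝ)| ^ (27 : ℕ)) ^ ((1 : ℝ) / 27)
      ≤ ((K : ℝ) * ((n : ℝ) + 1) ^ (4 : ℕ)) ^ ((1 : ℝ) / 27) :=
        Real.rpow_le_rpow (by positivity) hR (by norm_num)
    _ = (K : ℝ) ^ ((1 : ℝ) / 27) * (((n : ℝ) + 1) ^ (4 : ℕ)) ^ ((1 : ℝ) / 27) :=
        Real.mul_rpow hK0' (by positivity)
    _ = (K : ℝ) ^ ((1 : ℝ) / 27) * ((n : ℝ) + 1) ^ ((4 : ℝ) / 27) := by
        rw [← Real.rpow_natCast, ← Real.rpow_mul hn1]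
        norm_num

end Pool.Agent.Results.MP_e9c1cb_nt.ShortGapsInClasses
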